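import Pool.Agent.H.MP_a29272_gt.Main

namespace Pool.Agent.Results.MP_a29272_gt.NoQ2

open Matrix

abbrev V (n : ℕ) := Fin n → ℝ

abbrev Met (n : ℕ) := V n → Matrix (Fin n) (Fin n) ℝ

def ip {n : ℕ} (A : Matrix (Fin n) (Fin n) ℝ) (u v : V n) : ℝ := u ⬝ᵥ A *ᵥ v

def bv {n : ℕ} (i : Fin n) : V n := Pi.single i 1

noncomputable def chr {n : ℕ} (h : Met n) (x u v : V n) : V n :=
  (h x)⁻¹ *ᵥ fun l => (1 / 2 : ℝ) *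
    (lineDeriv ℝ (fun z => ip (h z) v (bv l)) x u + lineDeriv ℝ (fun z => ip (h z) u (bv l)) x v
      - lineDeriv ℝ (fun z => ip (h z) u v) x (bv l))

noncomputable def hess {n : ℕ} (g : Met n) (f : V n → ℝ) (x u v : V n) : ℝ :=
  lineDeriv ℝ (fun z => lineDeriv ℝ f z v) x u - lineDeriv ℝ f x (chr g x u v)

def IsMetric {n : ℕ} (g : Met n) : Prop :=
  (∀ i j, ContDiff ℝ (⊤ : ℕ∞) (fun x => g x i j)) ∧ ∀ x, (g x).PosDef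

theorem result : ∃ (g : Met 3) (r : ℝ), 0 < r ∧ IsMetric g ∧
    (∀ (c : ℝ → V 3) (ν : V 3), ContDiff ℝ 2 c → (∀ t, c t ⬝ᵥ c t = r) → deriv c 0 ≠ 0 →
      (∀ u, c 0 ⬝ᵥ u = 0 → ip (g (c 0)) ν u = 0) → c 0 ⬝ᵥ ν < 0 → ip (g (c 0)) ν ν = 1 →
      0 < ip (g (c 0)) (deriv (deriv c) 0 + chr g (c 0) (deriv c 0) (deriv c 0)) ν) ∧
    (∀ (I : Set ℝ) (γ γ' : ℝ → V 3), (I = Set.Ioi 0 ∨ I = Set.Iio 0) →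
      (∀ t ∈ I, HasDerivAt γ (γ' t) t ∧ HasDerivAt γ' (-chr g (γ t) (γ' t) (γ' t)) t ∧
        ip (g (γ t)) (γ' t) (γ' t) = 1) → ∃ t ∈ I, r < γ t ⬝ᵥ γ t) ∧
    ¬ ∃ f : V 3 → ℝ, ContDiffOn ℝ 2 f {x | x ⬝ᵥ x < r} ∧
      ∀ x, x ⬝ᵥ x < r → ∀ v, v ≠ 0 → 0 < hess g f x v v :=
  Pool.Agent.H.MP_a29272_gt.main

end Pool.Agent.Results.MP_a29272_gt.NoQ2
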